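import Mathlib
import Pool.Agent.H15.CG.Small
import Pool.Agent.H15.CG.Large

/-!
# Odd cycles in coprime graphs of dense integer sets

The theorem `result` of this file is a complete positive answer to the question, written with
definitions of its own: the coprime graph on the vertex set `A`, and cycles as sequences of
distinct vertices, as in the text of the problem. It is independent of the definitions used by
the frozen statement.
-/

set_option autoImplicit false

namespace Pool.Agent.Results.MP_dcec01_nt.OddCycles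

/-- The number `⌊n/2⌋ + ⌊n/3⌋ - ⌊n/6⌋`, computed in the integers. -/
noncomputable def f (n : ℕ) : ℤ := ⌊(n : ℝ) / 2⌋ + ⌊(n : ℝ) / 3⌋ - ⌊(n : ℝ) / 6⌋

/-- The coprime graph `G(A)`: the vertices are the members of `A`; two distinct members are
adjacent exactly when their greatest common divisor is one. -/
def G (A : Finset ℕ) : SimpleGraph {a : ℕ // a ∈ A} where
  Adj a b := a ≠ b ∧ Nat.gcd a.1 b.1 = 1
  symm := ⟨fun a b h => ⟨h.1.symm, by rw [Nat.gcd_comm]; exact h.2⟩⟩
  loopless := ⟨fun a h => h.1 rfl⟩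

/-- The graph `H` contains a cycle of length `l`: `3 ≤ l` and there are vertices `a 1, …, a l`
which are pairwise distinct, `a i` is adjacent to `a (i + 1)` for `1 ≤ i < l`, and `a l` is
adjacent to `a 1`. -/
def HasCycle {V : Type} (H : SimpleGraph V) (l : ℕ) : Prop :=
  3 ≤ l ∧ ∃ a : ℕ → V,
    (∀ i j : ℕ, 1 ≤ i → i ≤ l → 1 ≤ j → j ≤ l → a i = a j → i = j) ∧
    (∀ i : ℕ, 1 ≤ i → i < l → H.Adj (a i) (a (i + 1))) ∧
    H.Adj (a l) (a 1)

theorem floor_div (n k : ℕ) (hk : 0 < k) : ⌊(n : ℝ) / (k : ℝ)⌋ = ((n / k : ℕ) : ℤ) := by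
  have hk' : (0 : ℝ) < (k : ℝ) := by exact_mod_cast hk
  rw [Int.floor_eq_iff]
  constructor
  · rw [le_div_iff₀ hk']
    exact_mod_cast Nat.div_mul_le_self n k
  · rw [div_lt_iff₀ hk']
    have h := Nat.lt_div_mul_add (a := n) hk
    have h2 : n < (n / k + 1) * k := by
      rw [Nat.add_mul, Nat.one_mul]
      exact h
    exact_mod_cast h2

theorem f_eq (n : ℕ) : f n = ((n / 2 + n / 3 - n / 6 : ℕ) : ℤ) := by
  unfold f
  have h2 := floor_div n 2 (by norm_num)
  have h3 := floor_div n 3 (by norm_num)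
  have h6 := floor_div n 6 (by norm_num)
  push_cast at h2 h3 h6
  rw [h2, h3, h6]
  omega

/-- From the internal form of a cycle to the form of this file. -/
theorem hasCycle_of {A : Finset ℕ} {m : ℕ} (hm : 3 ≤ m)
    (h : Pool.Agent.H15.CG.HasCyc A m) : HasCycle (G A) m := by
  obtain ⟨v, h1, h2, h3, h4⟩ := h
  have hlt : ∀ i : ℕ, (i - 1) % m < m := fun i => Nat.mod_lt _ (by omega)
  have key : ∀ i j : ℕ, 1 ≤ i → i ≤ m → 1 ≤ j → j ≤ m →
      v ((i - 1) % m) = v ((j - 1) % m) → i = j := by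
    intro i j hi hi' hj hj' hij
    have := h2 _ (hlt i) _ (hlt j) hij
    rw [Nat.mod_eq_of_lt (by omega), Nat.mod_eq_of_lt (by omega)] at this
    omega
  refine ⟨hm, fun i => ⟨v ((i - 1) % m), h1 _ (hlt i)⟩, ?_, ?_, ?_⟩
  · intro i j hi hi' hj hj' hij
    exact key i j hi hi' hj hj' (congrArg Subtype.val hij)
  · intro i hi hi'
    refine ⟨?_, ?_⟩
    · intro he
      have := key i (i + 1) hi (by omega) (by omega) (by omega) (congrArg Subtype.val he)
      omega
    · have e1 : (i - 1) % m = i - 1 := Nat.mod_eq_of_lt (by omega)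
      have e2 : (i + 1 - 1) % m = (i - 1) + 1 := by
        rw [Nat.mod_eq_of_lt (by omega)]
        omega
      have h5 := h3 (i - 1) (by omega)
      show Nat.gcd (v ((i - 1) % m)) (v ((i + 1 - 1) % m)) = 1
      rw [e1, e2]
      exact h5
  · refine ⟨?_, ?_⟩
    · intro he
      have := key m 1 (by omega) le_rfl le_rfl (by omega) (congrArg Subtype.val he)
      omega
    · have e1 : (m - 1) % m = m - 1 := Nat.mod_eq_of_lt (by omega)
      have e2 : (1 - 1) % m = 0 := by simp
      show Nat.gcd (v ((m - 1) % m)) (v ((1 - 1) % m)) = 1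
      rw [e1, e2]
      exact h4

/-- **Odd cycles in coprime graphs.** For every `n ≥ 1` and every set `A ⊆ {1, …, n}` with more
than `f n = ⌊n/2⌋ + ⌊n/3⌋ - ⌊n/6⌋` members, the coprime graph `G A` contains a cycle of length
`l` for every odd `l` with `3 ≤ l ≤ n/3 + 1`. -/
theorem result (n : ℕ) (hn : 1 ≤ n) (A : Finset ℕ) (hA : ∀ a ∈ A, 1 ≤ a ∧ a ≤ n)
    (hc : f n < (A.card : ℤ)) (l : ℕ) (hodd : Odd l) (h3 : 3 ≤ l)
    (hl : (l : ℝ) ≤ (n : ℝ) / 3 + 1) : HasCycle (G A) l := by
  have _ := hn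
  have hA1 : A ⊆ Finset.Icc 1 n := fun a ha => Finset.mem_Icc.mpr (hA a ha)
  rw [f_eq] at hc
  have hc' : n / 2 + n / 3 - n / 6 < A.card := by exact_mod_cast hc
  have hl3 : 3 * l ≤ n + 3 := by
    have h1 : 3 * (l : ℝ) ≤ (n : ℝ) + 3 := by linarith
    exact_mod_cast h1
  obtain ⟨A', hA', hcard⟩ := Finset.exists_subset_card_eq (Nat.succ_le_of_lt hc')
  obtain ⟨K, rfl⟩ := hodd
  apply hasCycle_of h3
  refine Pool.Agent.H15.CG.HasCyc.mono ?_ hA'
  rcases Nat.lt_or_ge 6097 n with hn2 | hn2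
  · exact Pool.Agent.H15.CG.large n hn2 A' (hA'.trans hA1) hcard K (by omega) (by omega)
  · exact Pool.Agent.H15.CG.small n hn2 A' (hA'.trans hA1) hcard K (by omega) (by omega)

end Pool.Agent.Results.MP_dcec01_nt.OddCycles
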